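import Mathlib

set_option autoImplicit false

namespace Pool.Agent.Results.MP_55b43c_co.UnboundedGap

/-- A legal move of a token: stay at `x`, or go to a neighbour `y` of `x`. -/
def Step {V : Type*} (G : SimpleGraph V) (x y : V) : Prop := y = x ∨ G.Adj x y

/-- In one round the cops moved from `c` to `c'` and the robot then moved from `r` to `r'`.
The robot is captured if it now shares its vertex with a cop, or if it traversed an edge that
some cop traversed in this round. -/
def Captured {V : Type*} {k : ℕ} (c c' : Fin k → V) (r r' : V) : Prop :=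
  (∃ i, c' i = r') ∨ (r ≠ r' ∧ ∃ i, s(c i, c' i) = s(r, r'))

/-- `CopWin G c r`: with cops on `c`, robot on `r` and the cops to move, the cops can force the
capture of the robot (least fixed point: the capture happens after finitely many rounds). -/
inductive CopWin {V : Type*} (G : SimpleGraph V) {k : ℕ} : (Fin k → V) → V → Prop
  | move (c : Fin k → V) (r : V) (c' : Fin k → V) (hc : ∀ i, Step G (c i) (c' i))
      (h : ∀ r', Step G r r' → ¬ Captured c c' r r' → CopWin G c' r') : CopWin G c r

/-- `k` cops win the Cheating Robot game on `G`: they have an initial placement from which they can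
force the capture of the robot wherever it is placed. -/
def CopsWin {V : Type*} (G : SimpleGraph V) (k : ℕ) : Prop :=
  ∃ c : Fin k → V, ∀ r : V, CopWin G c r

/-- The cheating robot cop number. -/
noncomputable def crCopNumber {V : Type*} (G : SimpleGraph V) : ℕ := sInf {k | CopsWin G k}

/-! ### General facts -/

/-- With one cop on each vertex the cops win; so the set defining the cop number is nonempty. -/
theorem copsWin_card {V : Type*} [Fintype V] (G : SimpleGraph V) :
    CopsWin G (Fintype.card V) := by
  classical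
  refine ⟨(Fintype.equivFin V).symm, fun r => ?_⟩
  refine CopWin.move _ _ (Fintype.equivFin V).symm (fun i => Or.inl rfl) ?_
  intro r' _ hcap
  exact absurd (Or.inl ⟨Fintype.equivFin V r', by simp⟩) hcap

/-- Transfer along an isomorphism. -/
theorem CopWin.map {V W : Type*} {G : SimpleGraph V} {H : SimpleGraph W} (φ : G ≃g H) {k : ℕ}
    {c : Fin k → V} {r : V} (h : CopWin G c r) : CopWin H (fun i => φ (c i)) (φ r) := by
  induction h with
  | move c r c' hc _ ih =>
    refine CopWin.move _ _ (fun i => φ (c' i)) ?_ ?_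
    · intro i
      rcases hc i with h | h
      · left; rw [h]
      · right; exact φ.map_rel_iff.mpr h
    · intro r' hr' hcap
      have hr2 : Step G r (φ.symm r') := by
        rcases hr' with h | h
        · left; rw [h]; simp
        · right
          have : G.Adj (φ.symm (φ r)) (φ.symm r') := φ.symm.map_rel_iff.mpr h
          simpa using this
      have hcap2 : ¬ Captured c c' r (φ.symm r') := by
        intro hc2
        apply hcap
        rcases hc2 with ⟨i, hi⟩ | ⟨hne, i, hi⟩
        · left; exact ⟨i, by simp [hi]⟩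
        · right
          refine ⟨?_, i, ?_⟩
          · intro h; apply hne; rw [← h]; simp
          · have := congrArg (Sym2.map φ) hi
            simpa using this
      have := ih _ hr2 hcap2
      simpa using this

theorem CopsWin.of_iso {V W : Type*} {G : SimpleGraph V} {H : SimpleGraph W} (φ : G ≃g H) {k : ℕ}
    (h : CopsWin G k) : CopsWin H k := by
  obtain ⟨c, hc⟩ := h
  refine ⟨fun i => φ (c i), fun r => ?_⟩
  have := (hc (φ.symm r)).map φ
  simpa using this

/-- The robot evades on `G` against `k` cops as soon as there is an invariant that it can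
establish and maintain. -/
theorem not_copsWin_of_inv {V : Type*} {G : SimpleGraph V} {k : ℕ}
    (Inv : (Fin k → V) → V → Prop)
    (h0 : ∀ c, ∃ r, Inv c r)
    (hstep : ∀ c r c', Inv c r → (∀ i, Step G (c i) (c' i)) →
      ∃ r', Step G r r' ∧ ¬ Captured c c' r r' ∧ Inv c' r') : ¬ CopsWin G k := by
  rintro ⟨c, hc⟩
  obtain ⟨r, hr⟩ := h0 c
  have key : ∀ (c : Fin k → V) (r : V), CopWin G c r → ¬ Inv c r := by
    intro c r h
    induction h with
    | move c r c' hc _ ih =>
      intro hI
      obtain ⟨r', h1, h2, h3⟩ := hstep c r c' hI hc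
      exact ih r' h1 h2 h3
  exact key c r (hc r) hr

/-! ### The graphs -/

/-- Vertices of the once-subdivided `K_{d,d}`. -/
abbrev W (d : ℕ) := (Fin d ⊕ Fin d) ⊕ (Fin d × Fin d)

/-- The incidence relation: an original vertex lies on the (subdivided) edge `(i,j)`. -/
def Inc {d : ℕ} : (Fin d ⊕ Fin d) → (Fin d × Fin d) → Prop
  | Sum.inl i, p => p.1 = i
  | Sum.inr j, p => p.2 = j

/-- The once-subdivided `K_{d,d}`. -/
def H0 (d : ℕ) : SimpleGraph (W d) where
  Adj x y := match x, y with
    | Sum.inl v, Sum.inr e => Inc v e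
    | Sum.inr e, Sum.inl v => Inc v e
    | _, _ => False
  symm := ⟨by
    intro x y h
    rcases x with x | x <;> rcases y with y | y
    · exact h
    · exact h
    · exact h
    · exact h⟩
  loopless := ⟨by
    intro x h
    rcases x with x | x <;> simp at h⟩

/-- The cone over a graph: one new vertex adjacent to all others. -/
def cone {U : Type*} (H : SimpleGraph U) : SimpleGraph (Option U) where
  Adj x y := match x, y with
    | some v, some w => H.Adj v w
    | some _, none => True
    | none, some _ => True
    | none, none => False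
  symm := ⟨by
    intro x y h
    rcases x with _ | x <;> rcases y with _ | y <;> simp_all [H.adj_comm]⟩
  loopless := ⟨by
    intro x h
    rcases x with _ | x <;> simp_all⟩

/-- The copy of `H` inside its cone. -/
def base {U : Type*} (H : SimpleGraph U) : (cone H).Subgraph where
  verts := Set.range some
  Adj x y := ∃ a b, H.Adj a b ∧ x = some a ∧ y = some b
  adj_sub := by
    rintro x y ⟨a, b, h, rfl, rfl⟩
    exact h
  edge_vert := by
    rintro x y ⟨a, b, h, rfl, rfl⟩
    exact ⟨a, rfl⟩
  symm := ⟨by
    rintro x y ⟨a, b, h, rfl, rfl⟩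
    exact ⟨b, a, h.symm, rfl, rfl⟩⟩

noncomputable def baseIso {U : Type*} (H : SimpleGraph U) : H ≃g (base H).coe where
  toEquiv := Equiv.ofInjective (some : U → Option U) (Option.some_injective U)
  map_rel_iff' := by
    intro a b
    simp only [SimpleGraph.Subgraph.coe_adj]
    constructor
    · rintro ⟨a', b', h, h1, h2⟩
      have h1' : a = a' := Option.some.inj h1
      have h2' : b = b' := Option.some.inj h2
      subst h1' h2'
      exact h
    · intro h
      exact ⟨a, b, h, rfl, rfl⟩

theorem cone_connected {U : Type*} (H : SimpleGraph U) : (cone H).Connected := by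
  have h : ∀ x, (cone H).Reachable x none := by
    intro x
    rcases x with _ | x
    · exact SimpleGraph.Reachable.refl _
    · exact SimpleGraph.Adj.reachable (show (cone H).Adj (some x) none from trivial)
  have : Nonempty (Option U) := ⟨none⟩
  exact SimpleGraph.Connected.mk (fun x y => (h x).trans (h y).symm)

theorem H0_adj_mid {d : ℕ} (v : Fin d ⊕ Fin d) (e : Fin d × Fin d) :
    (H0 d).Adj (Sum.inl v) (Sum.inr e) ↔ Inc v e := Iff.rfl

theorem H0_connected {d : ℕ} (hd : 0 < d) : (H0 d).Connected := by
  let o : Fin d := ⟨0, hd⟩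
  have hm : ∀ (i j : Fin d), (H0 d).Reachable (Sum.inl (Sum.inl i)) (Sum.inl (Sum.inr j)) := by
    intro i j
    have h1 : (H0 d).Adj (Sum.inl (Sum.inl i)) (Sum.inr (i, j)) := by
      rw [H0_adj_mid]; rfl
    have h2 : (H0 d).Adj (Sum.inl (Sum.inr j)) (Sum.inr (i, j)) := by
      rw [H0_adj_mid]; rfl
    exact h1.reachable.trans h2.reachable.symm
  have h : ∀ x, (H0 d).Reachable x (Sum.inl (Sum.inr o)) := by
    intro x
    rcases x with (i | j) | ⟨i, j⟩
    · exact hm i o
    · exact (hm o j).symm.trans (hm o o)
    · have h1 : (H0 d).Adj (Sum.inl (Sum.inl i)) (Sum.inr (i, j)) := by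
        rw [H0_adj_mid]; rfl
      exact h1.reachable.symm.trans (hm i o)
  have : Nonempty (W d) := ⟨Sum.inl (Sum.inl o)⟩
  exact SimpleGraph.Connected.mk (fun x y => (h x).trans (h y).symm)

/-- Pigeonhole: fewer than `d` cops, each spoiling at most one direction. -/
theorem exists_free {d k : ℕ} (hk : k < d) (P : Fin k → Fin d → Prop)
    (hP : ∀ i a b, P i a → P i b → a = b) : ∃ j, ∀ i, ¬ P i j := by
  classical
  by_contra hcon
  push Not at hcon
  choose f hf using hcon
  have hinj : Function.Injective f := by
    intro a b hab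
    exact hP (f a) a b (hf a) (hab ▸ hf b)
  have := Fintype.card_le_of_injective f hinj
  simp at this
  omega

/-- The robot evades fewer than `d` cops on the once-subdivided `K_{d,d}`. -/
theorem H0_evade {d k : ℕ} (hk : k < d) : ¬ CopsWin (H0 d) k := by
  apply not_copsWin_of_inv (fun (c : Fin k → W d) (r : W d) =>
    (∃ v, r = Sum.inl v ∧ ∀ i, c i ≠ Sum.inl v) ∨
    (∃ v e, Inc v e ∧ r = Sum.inr e ∧ ∀ i, c i ≠ Sum.inl v ∧ ¬ (H0 d).Adj (Sum.inl v) (c i)))
  · intro c
    obtain ⟨j, hj⟩ := exists_free hk (fun i j => c i = Sum.inl (Sum.inl j)) (by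
      intro i a b ha hb
      have := ha.symm.trans hb
      simpa using this)
    exact ⟨Sum.inl (Sum.inl j), Or.inl ⟨_, rfl, hj⟩⟩
  · rintro c r c' (⟨v, rfl, hv⟩ | ⟨v, e, hve, rfl, hv⟩) hc
    · by_cases hatt : ∀ i, c' i ≠ Sum.inl v
      · refine ⟨Sum.inl v, Or.inl rfl, ?_, Or.inl ⟨v, rfl, hatt⟩⟩
        rintro (⟨i, hi⟩ | ⟨h, _⟩)
        · exact hatt i hi
        · exact h rfl
      · rcases v with a | b
        · obtain ⟨j, hj⟩ := exists_free hk (fun i j => c' i = Sum.inl (Sum.inr j) ∨
            (∃ a', c' i = Sum.inr (a', j)) ∨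
            (c' i = Sum.inl (Sum.inl a) ∧ c i = Sum.inr (a, j))) (by
            rintro i x y (h1 | ⟨a1, h1⟩ | ⟨h1, h1'⟩) (h2 | ⟨a2, h2⟩ | ⟨h2, h2'⟩) <;>
            simp_all)
          refine ⟨Sum.inr (a, j), Or.inr rfl, ?_, Or.inr ⟨Sum.inr j, (a, j), rfl, rfl, ?_⟩⟩
          · rintro (⟨i, hi⟩ | ⟨_, i, hi⟩)
            · exact hj i (Or.inr (Or.inl ⟨a, hi⟩))
            · rw [Sym2.eq_iff] at hi
              rcases hi with ⟨_, h2⟩ | ⟨h1, h2⟩
              · exact hj i (Or.inr (Or.inl ⟨a, h2⟩))
              · exact hj i (Or.inr (Or.inr ⟨h2, h1⟩))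
          · intro i
            refine ⟨fun h => hj i (Or.inl h), fun h => ?_⟩
            rcases hci : c' i with v' | ⟨a', j'⟩
            · rw [hci] at h; exact h
            · rw [hci] at h
              have : j' = j := h
              subst this
              exact hj i (Or.inr (Or.inl ⟨a', hci⟩))
        · obtain ⟨j, hj⟩ := exists_free hk (fun i j => c' i = Sum.inl (Sum.inl j) ∨
            (∃ b', c' i = Sum.inr (j, b')) ∨
            (c' i = Sum.inl (Sum.inr b) ∧ c i = Sum.inr (j, b))) (by
            rintro i x y (h1 | ⟨a1, h1⟩ | ⟨h1, h1'⟩) (h2 | ⟨a2, h2⟩ | ⟨h2, h2'⟩) <;>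
            simp_all)
          refine ⟨Sum.inr (j, b), Or.inr rfl, ?_, Or.inr ⟨Sum.inl j, (j, b), rfl, rfl, ?_⟩⟩
          · rintro (⟨i, hi⟩ | ⟨_, i, hi⟩)
            · exact hj i (Or.inr (Or.inl ⟨b, hi⟩))
            · rw [Sym2.eq_iff] at hi
              rcases hi with ⟨_, h2⟩ | ⟨h1, h2⟩
              · exact hj i (Or.inr (Or.inl ⟨b, h2⟩))
              · exact hj i (Or.inr (Or.inr ⟨h2, h1⟩))
          · intro i
            refine ⟨fun h => hj i (Or.inl h), fun h => ?_⟩
            rcases hci : c' i with v' | ⟨j', b'⟩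
            · rw [hci] at h; exact h
            · rw [hci] at h
              have : j' = j := h
              subst this
              exact hj i (Or.inr (Or.inl ⟨b', hci⟩))
    · have hsafe : ∀ i, c' i ≠ Sum.inl v := by
        intro i hi
        rcases hc i with h | h
        · exact (hv i).1 (h ▸ hi)
        · rw [hi] at h
          exact (hv i).2 h.symm
      refine ⟨Sum.inl v, Or.inr hve, ?_, Or.inl ⟨v, rfl, hsafe⟩⟩
      rintro (⟨i, hi⟩ | ⟨_, i, hi⟩)
      · exact hsafe i hi
      · rw [Sym2.eq_iff] at hi
        rcases hi with ⟨h1, _⟩ | ⟨h1, _⟩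
        · apply (hv i).2
          rw [h1]
          exact hve
        · exact (hv i).1 h1

/-- If every vertex has at least `d` neighbours, then fewer than `d` cops lose. -/
theorem evade_of_degree {V : Type*} [Nonempty V] {G : SimpleGraph V} {d k : ℕ} (hk : k < d)
    (f : V → Fin d → V) (hf : ∀ v, Function.Injective (f v)) (hadj : ∀ v j, G.Adj v (f v j)) :
    ¬ CopsWin G k := by
  apply not_copsWin_of_inv (fun (c : Fin k → V) (r : V) => ∀ i, c i ≠ r)
  · intro c
    obtain ⟨v⟩ := ‹Nonempty V›
    obtain ⟨j, hj⟩ := exists_free hk (fun i j => c i = f v j) (by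
      intro i a b ha hb
      exact hf v (ha.symm.trans hb))
    exact ⟨f v j, hj⟩
  · intro c r c' hr hc
    obtain ⟨j, hj⟩ := exists_free hk
      (fun i j => c' i = f r j ∨ (c' i = r ∧ c i = f r j)) (by
      rintro i a b (h1 | ⟨h1, h1'⟩) (h2 | ⟨h2, h2'⟩)
      · exact hf r (h1.symm.trans h2)
      · exact absurd (h2.symm.trans h1) (hadj r a).ne
      · exact absurd (h1.symm.trans h2) (hadj r b).ne
      · exact hf r (h1'.symm.trans h2'))
    refine ⟨f r j, Or.inr (hadj r j), ?_, fun i h => hj i (Or.inl h)⟩
    rintro (⟨i, hi⟩ | ⟨_, i, hi⟩)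
    · exact hj i (Or.inl hi)
    · rw [Sym2.eq_iff] at hi
      rcases hi with ⟨_, h2⟩ | ⟨h1, h2⟩
      · exact hj i (Or.inl h2)
      · exact hj i (Or.inr ⟨h2, h1⟩)

theorem win1 {d : ℕ} (e : Fin d × Fin d) :
    CopWin (cone (H0 d)) ![none, none, none] (some (Sum.inr e)) := by
  refine CopWin.move _ _ ![some (Sum.inr e), some (Sum.inl (Sum.inl e.1)),
    some (Sum.inl (Sum.inr e.2))] ?_ ?_
  · intro i
    fin_cases i <;> exact Or.inr trivial
  · intro r' hr' hcap
    exfalso
    apply hcap
    rcases hr' with rfl | hr'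
    · exact Or.inl ⟨0, rfl⟩
    · rcases r' with _ | ((a | b) | e')
      · right
        refine ⟨by simp, 0, ?_⟩
        simp
      · have : e.1 = a := hr'
        subst this
        exact Or.inl ⟨1, rfl⟩
      · have : e.2 = b := hr'
        subst this
        exact Or.inl ⟨2, rfl⟩
      · exact absurd hr' (by intro h; exact h)

theorem win2 {d : ℕ} (v : Fin d ⊕ Fin d) (e : Fin d × Fin d) (hve : Inc v e) :
    CopWin (cone (H0 d)) ![some (Sum.inl v), none, none] (some (Sum.inr e)) := by
  rcases v with a | b
  · have : e.1 = a := hve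
    subst this
    refine CopWin.move _ _ ![some (Sum.inr e), some (Sum.inl (Sum.inr e.2)), none] ?_ ?_
    · intro i
      fin_cases i
      · exact Or.inr hve
      · exact Or.inr trivial
      · exact Or.inl rfl
    · intro r' hr' hcap
      exfalso
      apply hcap
      rcases hr' with rfl | hr'
      · exact Or.inl ⟨0, rfl⟩
      · rcases r' with _ | ((a | b) | e')
        · exact Or.inl ⟨2, rfl⟩
        · have : e.1 = a := hr'
          subst this
          right
          refine ⟨by simp, 0, ?_⟩
          simp
        · have : e.2 = b := hr'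
          subst this
          exact Or.inl ⟨1, rfl⟩
        · exact absurd hr' (by intro h; exact h)
  · have : e.2 = b := hve
    subst this
    refine CopWin.move _ _ ![some (Sum.inr e), some (Sum.inl (Sum.inl e.1)), none] ?_ ?_
    · intro i
      fin_cases i
      · exact Or.inr hve
      · exact Or.inr trivial
      · exact Or.inl rfl
    · intro r' hr' hcap
      exfalso
      apply hcap
      rcases hr' with rfl | hr'
      · exact Or.inl ⟨0, rfl⟩
      · rcases r' with _ | ((a | b) | e')
        · exact Or.inl ⟨2, rfl⟩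
        · have : e.1 = a := hr'
          subst this
          exact Or.inl ⟨1, rfl⟩
        · have : e.2 = b := hr'
          subst this
          right
          refine ⟨by simp, 0, ?_⟩
          simp
        · exact absurd hr' (by intro h; exact h)

theorem win3 {d : ℕ} (v : Fin d ⊕ Fin d) :
    CopWin (cone (H0 d)) ![none, none, none] (some (Sum.inl v)) := by
  refine CopWin.move _ _ ![some (Sum.inl v), none, none] ?_ ?_
  · intro i
    fin_cases i
    · exact Or.inr trivial
    · exact Or.inl rfl
    · exact Or.inl rfl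
  · intro r' hr' hcap
    rcases hr' with rfl | hr'
    · exact absurd (Or.inl ⟨0, rfl⟩) hcap
    · rcases r' with _ | (v' | e)
      · exact absurd (Or.inl ⟨1, rfl⟩) hcap
      · exact absurd hr' (by intro h; exact h)
      · exact win2 v e hr'

/-- Three cops win on the cone over the once-subdivided `K_{d,d}`. -/
theorem cone_copsWin (d : ℕ) : CopsWin (cone (H0 d)) 3 := by
  refine ⟨![none, none, none], ?_⟩
  intro r
  rcases r with _ | (v | e)
  · refine CopWin.move _ _ ![none, none, none] (fun i => Or.inl rfl) ?_
    intro r' hr' hcap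
    rcases r' with _ | (v | e)
    · exact absurd (Or.inl ⟨0, rfl⟩) hcap
    · exact win3 v
    · exact win1 e
  · exact win3 v
  · exact win1 e

theorem cone_evade {d k : ℕ} (hd : 2 ≤ d) (hk : k < 3) : ¬ CopsWin (cone (H0 d)) k := by
  let o : Fin d := ⟨0, by omega⟩
  let t : Fin d := ⟨1, by omega⟩
  have hot : o ≠ t := by simp [o, t]
  let f : Option (W d) → Fin 3 → Option (W d) := fun x => match x with
    | none => ![some (Sum.inl (Sum.inl o)), some (Sum.inl (Sum.inl t)), some (Sum.inl (Sum.inr o))]
    | some (Sum.inl (Sum.inl a)) => ![none, some (Sum.inr (a, o)), some (Sum.inr (a, t))]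
    | some (Sum.inl (Sum.inr b)) => ![none, some (Sum.inr (o, b)), some (Sum.inr (t, b))]
    | some (Sum.inr e) => ![none, some (Sum.inl (Sum.inl e.1)), some (Sum.inl (Sum.inr e.2))]
  have : Nonempty (Option (W d)) := ⟨none⟩
  refine evade_of_degree hk f ?_ ?_
  · intro v
    rcases v with _ | ((a | b) | e) <;>
    · intro x y hxy
      fin_cases x <;> fin_cases y <;> simp [f, hot, hot.symm] at hxy ⊢
  · intro v j
    rcases v with _ | ((a | b) | e) <;> fin_cases j <;>
    first
    | exact trivial
    | exact (rfl : a = a)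
    | exact (rfl : b = b)
    | exact (rfl : e.1 = e.1)
    | exact (rfl : e.2 = e.2)

/-- **Monotonicity of the cheating robot cop number under connected subgraphs fails, with
unbounded gap.** For every `n` there are a finite connected graph `G` and a connected subgraph `H`
of `G` such that `c_cr(G) = 3` and `c_cr(H) ≥ n`. -/
theorem result : ∀ n : ℕ, ∃ (V : Type) (_ : Fintype V) (G : SimpleGraph V) (H : G.Subgraph),
    G.Connected ∧ H.Connected ∧ crCopNumber G = 3 ∧ n ≤ crCopNumber H.coe := by
  intro n
  obtain ⟨d, hn, hd⟩ : ∃ d, n ≤ d ∧ 2 ≤ d := ⟨n + 2, by omega, by omega⟩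
  refine ⟨Option (W d), inferInstance, cone (H0 d), base (H0 d), cone_connected _, ?_, ?_, ?_⟩
  · rw [SimpleGraph.Subgraph.connected_iff']
    exact (baseIso (H0 d)).connected_iff.mp (H0_connected (by omega))
  · apply le_antisymm
    · exact Nat.sInf_le (cone_copsWin d)
    · refine le_csInf ⟨3, cone_copsWin d⟩ ?_
      intro k hk
      by_contra hlt
      exact cone_evade hd (by omega) hk
  · refine hn.trans (le_csInf ⟨_, (copsWin_card (H0 d)).of_iso (baseIso (H0 d))⟩ ?_)
    intro k hk
    by_contra hlt
    exact H0_evade (by omega) (CopsWin.of_iso (baseIso (H0 d)).symm hk)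

end Pool.Agent.Results.MP_55b43c_co.UnboundedGap
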